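import Mathlib

/-! The relative position of a newly inserted point. -/

namespace Pool.Agent.Lib.MP_755262_lc.UM

open Classical in
/-- The number of earlier points that lie to the left of point number `i`. -/
noncomputable def rank (x : ℕ → ℝ) (i : ℕ) : ℕ := ((Finset.range i).filter fun j => x j < x i).card

end Pool.Agent.Lib.MP_755262_lc.UM
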