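import Pool.Agent.Lib.MP_755262_lc.UM.Defs

/-! The unique-maximum statement implies the conflict-free statement in the wording of the
problem file (the former hand-in Linear). -/

namespace Pool.Agent.Lib.MP_755262_lc.UM

theorem linear_of_um (h : ∃ A : List ℕ → ℕ, ∃ C : ℝ, (∀ l, 1 ≤ A l) ∧
    ∀ x : ℕ → ℝ, Function.Injective x → ∀ n : ℕ,
      (∀ I : Set ℝ, I.OrdConnected → (∃ i, i < n ∧ x i ∈ I) →
        ∃ i, i < n ∧ x i ∈ I ∧ ∀ j, j < n → x j ∈ I → j ≠ i →
          A ((List.range (j + 1)).map (rank x)) < A ((List.range (i + 1)).map (rank x))) ∧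
      (2 ≤ n → ∀ i, i < n → (A ((List.range (i + 1)).map (rank x)) : ℝ) ≤ C * Real.log n)) :
    ∃ A : List ℝ → ℕ, ∃ C : ℝ, (∀ l, 1 ≤ A l) ∧ ∀ x : ℕ → ℝ, Function.Injective x → ∀ n : ℕ,
      (∀ I : Set ℝ, I.OrdConnected → (∃ i, i < n ∧ x i ∈ I) →
        ∃ i, i < n ∧ x i ∈ I ∧ ∀ j, j < n → x j ∈ I → j ≠ i →
          A ((List.range (j + 1)).map x) ≠ A ((List.range (i + 1)).map x)) ∧
      (2 ≤ n → (((Finset.range n).image fun i => A ((List.range (i + 1)).map x)).card : ℝ)
        ≤ C * Real.log n) := by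
  classical
  obtain ⟨A, C, h1, h2⟩ := h
  have e : ∀ (x : ℕ → ℝ) (i : ℕ), (List.range ((List.range (i + 1)).map x).length).map
      (rank fun k => ((List.range (i + 1)).map x).getD k 0) = (List.range (i + 1)).map (rank x) := by
    intro x i
    rw [List.length_map, List.length_range]
    refine List.map_congr_left fun k hk => ?_
    have hk' := List.mem_range.1 hk
    have g : ∀ j, j < i + 1 → ((List.range (i + 1)).map x).getD j 0 = x j := fun j hj => by
      rw [List.getD_eq_getElem _ _ (by simpa using hj)]; simp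
    unfold rank
    refine congrArg Finset.card (Finset.filter_congr fun j hj => ?_)
    beta_reduce
    rw [g k hk', g j ((Finset.mem_range.1 hj).trans hk')]
  refine ⟨fun l => A ((List.range l.length).map (rank fun k => l.getD k 0)), C, fun l => h1 _,
    fun x hx n => ⟨fun I hI hne => ?_, fun hn => ?_⟩⟩
  · obtain ⟨i, i1, i2, i3⟩ := (h2 x hx n).1 I hI hne
    exact ⟨i, i1, i2, fun j j1 j2 j3 => by simp only [e]; exact (i3 j j1 j2 j3).ne⟩
  · simp only [e]
    have h3 := (h2 x hx n).2 hn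
    have h4 : (0 : ℝ) ≤ C * Real.log n := (Nat.cast_nonneg _).trans (h3 0 (by omega))
    have h5 : ((Finset.range n).image fun i => A ((List.range (i + 1)).map (rank x))) ⊆
        Finset.Icc 1 ⌊C * Real.log n⌋₊ := fun c hc => by
      obtain ⟨i, hi, rfl⟩ := Finset.mem_image.1 hc
      exact Finset.mem_Icc.2 ⟨h1 _, Nat.le_floor (h3 i (Finset.mem_range.1 hi))⟩
    have h6 := Finset.card_le_card h5
    rw [Nat.card_Icc, Nat.add_sub_cancel] at h6
    exact (Nat.cast_le.2 h6).trans (Nat.floor_le h4)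

end Pool.Agent.Lib.MP_755262_lc.UM
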