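import Pool.Agent.Lib.MP_755262_lc.H84Final

/-- A deterministic online conflict-free colouring of points on a line with respect to all
intervals that uses at most `C log n` colours on every sequence of `n ≥ 2` points. -/
theorem Pool.Agent.Lib.MP_755262_lc.linear_result :
    ∃ A : List ℝ → ℕ, ∃ C : ℝ, (∀ l, 1 ≤ A l) ∧ ∀ x : ℕ → ℝ, Function.Injective x → ∀ n : ℕ,
      (∀ I : Set ℝ, I.OrdConnected → (∃ i, i < n ∧ x i ∈ I) →
        ∃ i, i < n ∧ x i ∈ I ∧ ∀ j, j < n → x j ∈ I → j ≠ i →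
          A ((List.range (j + 1)).map x) ≠ A ((List.range (i + 1)).map x)) ∧
      (2 ≤ n → (((Finset.range n).image fun i => A ((List.range (i + 1)).map x)).card : ℝ)
        ≤ C * Real.log n) := by
  classical
  obtain ⟨A, hA⟩ := Pool.Agent.Lib.MP_755262_lc.online_log
  generalize Pool.Agent.Lib.MP_755262_lc.cC = C at hA
  refine ⟨fun l => A l + 1, 6 * C / Real.log 2, fun l => Nat.le_add_left _ _, fun x hx n =>
    ⟨fun I hI ⟨i, hi⟩ => ?_, fun hn => ?_⟩⟩
  · have hne : ((Finset.range n).filter fun j => x j ∈ I).Nonempty := ⟨i, by simpa using hi⟩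
    obtain ⟨a, a1, a2⟩ := Finset.exists_min_image _ x hne
    obtain ⟨b, b1, b2⟩ := Finset.exists_max_image _ x hne
    simp only [Finset.mem_filter, Finset.mem_range] at a1 a2 b1 b2
    obtain ⟨k, k1, k2, k3⟩ := (hA x hx n).1 (x a) (x b) ⟨i, hi.1, a2 i hi, b2 i hi⟩
    exact ⟨k, k1, hI.out a1.2 b1.2 k2, fun j j1 j2 j3 e =>
      k3 j j1 ⟨a2 j ⟨j1, j2⟩, b2 j ⟨j1, j2⟩⟩ j3 (Nat.succ_injective e)⟩
  · have h1 := (hA x hx n).2
    rw [Finset.card_range, ← Finset.card_image_of_injective _ (add_left_injective 1),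
      Finset.image_image] at h1
    have h2 : (1 : ℝ) ≤ Nat.log 2 n := by exact_mod_cast Nat.log_pos (by norm_num) hn
    have h3 : (Nat.log 2 n : ℝ) * Real.log 2 ≤ Real.log n := by
      rw [← Real.log_pow]
      exact Real.log_le_log (by positivity) (by exact_mod_cast Nat.pow_log_le_self 2 (by omega))
    have h4 := Real.log_pos (show (1 : ℝ) < 2 by norm_num)
    have h5 : (0 : ℝ) ≤ C := Nat.cast_nonneg _
    refine le_trans (by exact_mod_cast h1 : _ ≤ (C : ℝ) * (Nat.log 2 n + 5)) ?_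
    rw [div_mul_eq_mul_div, le_div_iff₀ h4]
    nlinarith [mul_nonneg h5 h4.le, mul_le_mul_of_nonneg_left h3 h5,
      mul_le_mul_of_nonneg_left h2 (mul_nonneg h5 h4.le)]
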