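import Pool.Agent.Lib.MP_755262_lc.H84Final
import Pool.Agent.Lib.MP_755262_lc.UM.Defs

/-! Online unique-maximum colouring from relative positions. -/

namespace Pool.Agent.Lib.MP_755262_lc.UM

open Pool.Agent.Lib.MP_755262_lc

/-- The marked sequence after a history of ranks given latest first. -/
def st (F : List (ℕ × ℕ × ℕ) → List (ℕ × ℕ × ℕ) → ℕ × ℕ × ℕ) : List ℕ → List (ℕ × ℕ × ℕ)
  | [] => []
  | k :: h => (st F h).take k ++ F ((st F h).take k) ((st F h).drop k) :: (st F h).drop k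

/-- The colour of the latest point. -/
def cl (F : List (ℕ × ℕ × ℕ) → List (ℕ × ℕ × ℕ) → ℕ × ℕ × ℕ) : List ℕ → ℕ
  | [] => 0
  | k :: h => (F ((st F h).take k) ((st F h).drop k)).1

lemma GI_nil : GI [] :=
  ⟨fun s hs h0 => absurd (List.infix_nil.1 hs) h0, fun s hs => by
    rw [List.suffix_nil.1 hs]; exact inv_nil, fun s hs => by
    rw [List.suffix_nil.1 hs]; exact inv_nil⟩

theorem online_um : ∃ A : List ℕ → ℕ, ∀ x : ℕ → ℝ, Function.Injective x → ∀ n : ℕ,
      (∀ a b : ℝ, (∃ i, i < n ∧ x i ∈ Set.Icc a b) →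
        ∃ i, i < n ∧ x i ∈ Set.Icc a b ∧
          ∀ j, j < n → x j ∈ Set.Icc a b → j ≠ i →
            A ((List.range (j + 1)).map (rank x)) < A ((List.range (i + 1)).map (rank x))) ∧
      ∀ i, i < n → A ((List.range (i + 1)).map (rank x)) < cC * (Nat.log 2 n + 5) := by
  classical
  have hF : ∀ l₁ l₂ : List (ℕ × ℕ × ℕ), ∃ z : ℕ × ℕ × ℕ, GI (l₁ ++ l₂) →
      z.1 < cC * (Nat.log 2 (l₁ ++ l₂).length + 5) ∧ GI (l₁ ++ z :: l₂) := fun l₁ l₂ => by
    by_cases h : GI (l₁ ++ l₂)
    · obtain ⟨z, hz⟩ := h.step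
      exact ⟨z, fun _ => hz⟩
    · exact ⟨(0, 0, 0), fun h1 => (h h1).elim⟩
  choose F hF using hF
  refine ⟨fun h => cl F h.reverse, fun x hx => ?_⟩
  set col : ℕ → ℕ := fun i => cl F ((List.range (i + 1)).map (rank x)).reverse with hcol
  have hm : ∀ m n, m ≤ n → cC * (Nat.log 2 m + 5) ≤ cC * (Nat.log 2 n + 5) := fun m n h => by
    have := Nat.log_mono_right (b := 2) h
    gcongr
  have key : ∀ n, ∃ s : List (ℝ × ℕ), (s.Pairwise fun a b => a.1 < b.1) ∧
      GI (st F ((List.range n).map (rank x)).reverse) ∧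
      (st F ((List.range n).map (rank x)).reverse).map Prod.fst = s.map Prod.snd ∧
      s.length = n ∧ (∀ q, q ∈ s ↔ ∃ i, i < n ∧ q = (x i, col i)) ∧
      ∀ i, i < n → col i < cC * (Nat.log 2 n + 5) := by
    intro n
    induction n with
    | zero => exact ⟨[], by simp, GI_nil, by simp [st], rfl, by simp, by simp⟩
    | succ n ih =>
      obtain ⟨s, k1, k2, k0, k3, k4, k5⟩ := ih
      have e : ((List.range (n + 1)).map (rank x)).reverse =
          rank x n :: ((List.range n).map (rank x)).reverse := by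
        simp [List.range_succ]
      have ec : col n = (F ((st F ((List.range n).map (rank x)).reverse).take (rank x n))
          ((st F ((List.range n).map (rank x)).reverse).drop (rank x n))).1 := by
        simp only [hcol]; rw [e]; rfl
      rw [e, st]
      generalize st F ((List.range n).map (rank x)).reverse = S at *
      obtain ⟨l₁, l₂, rfl, f2, f3⟩ := split_sorted (· < x n) (fun a b => lt_trans) s k1
      have hr : rank x n = l₁.length := by
        have hnd : l₁.Nodup := ((List.pairwise_append.1 k1).1).imp fun h e => by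
          rw [e] at h; exact lt_irrefl _ h
        rw [rank, ← List.toFinset_card_of_nodup hnd]
        refine Finset.card_bij (fun j _ => (x j, col j)) (fun j hj => ?_)
          (fun i _ j _ h => hx (congrArg Prod.fst h)) fun q hq => ?_
        · rw [Finset.mem_filter, Finset.mem_range] at hj
          rcases List.mem_append.1 ((k4 _).2 ⟨j, hj.1, rfl⟩) with h | h
          · exact List.mem_toFinset.2 h
          · exact absurd hj.2 (f3 _ h)
        · have hq' := List.mem_toFinset.1 hq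
          obtain ⟨i, hi, rfl⟩ := (k4 q).1 (List.mem_append_left _ hq')
          exact ⟨i, Finset.mem_filter.2 ⟨Finset.mem_range.2 hi, f2 _ hq'⟩, rfl⟩
      have hS : S.length = n := by
        have := congrArg List.length k0
        rw [List.length_map, List.length_map] at this
        rw [this, k3]
      obtain ⟨f4, f5⟩ := hF (S.take (rank x n)) (S.drop (rank x n)) (by
        rw [List.take_append_drop]; exact k2)
      rw [List.take_append_drop, hS, ← ec] at f4
      rw [List.pairwise_append] at k1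
      have f6 : ∀ a ∈ l₂, x n < a.1 := fun a ha => by
        obtain ⟨i, hi, rfl⟩ := (k4 a).1 (by simp [ha])
        exact lt_of_le_of_ne (not_lt.1 (f3 _ ha)) fun h => by have := hx h; omega
      refine ⟨l₁ ++ (x n, col n) :: l₂, ?_, f5, ?_, by simp at k3 ⊢; omega, fun q => ?_,
        fun i hi => ?_⟩
      · rw [List.pairwise_append, List.pairwise_cons]
        refine ⟨k1.1, ⟨f6, k1.2.1⟩, fun a ha b hb => ?_⟩
        rcases List.mem_cons.1 hb with rfl | hb
        · exact f2 a ha
        · exact k1.2.2 a ha b hb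
      · rw [List.map_append, List.map_cons, List.map_take, List.map_drop, k0, ← ec, hr,
          List.map_append, List.take_left' (by simp), List.drop_left' (by simp)]
        simp
      · rw [List.perm_middle.mem_iff, List.mem_cons, k4]
        constructor
        · rintro (rfl | ⟨i, hi, rfl⟩)
          · exact ⟨n, by omega, rfl⟩
          · exact ⟨i, by omega, rfl⟩
        · rintro ⟨i, hi, rfl⟩
          rcases Nat.lt_succ_iff_lt_or_eq.1 hi with h | rfl
          · exact Or.inr ⟨i, h, rfl⟩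
          · exact Or.inl rfl
      · rcases Nat.lt_succ_iff_lt_or_eq.1 hi with h | rfl
        · exact (k5 i h).trans_le (hm _ _ (Nat.le_succ n))
        · exact f4.trans_le (hm _ _ (Nat.le_succ _))
  intro n
  obtain ⟨s, k1, k2, k0, -, k4, k5⟩ := key n
  refine ⟨fun a b ⟨i, hi, hab⟩ => ?_, k5⟩
  generalize st F ((List.range n).map (rank x)).reverse = S at *
  obtain ⟨l₁, l₂, rfl, h1, h2⟩ := split_sorted (· < a) (fun a b => lt_trans) s k1
  obtain ⟨m₁, m₂, rfl, h3, h4⟩ := split_sorted (· ≤ b) (fun a b h => h.le.trans) l₂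
    (List.pairwise_append.1 k1).2.1
  have h5 : ∀ j, j < n → x j ∈ Set.Icc a b → (x j, col j) ∈ m₁ := fun j hj h => by
    have := (k4 _).2 ⟨j, hj, rfl⟩
    simp only [List.mem_append] at this
    rcases this with h6 | h6 | h6
    · exact absurd (h1 _ h6) (not_lt.2 h.1)
    · exact h6
    · exact absurd h.2 (h4 _ h6)
  have h7 : m₁.map Prod.snd <:+: S.map Prod.fst := by
    rw [k0]; exact List.IsInfix.map _ ⟨l₁, m₂, by simp⟩
  obtain ⟨t, t1, t2⟩ := List.infix_map_iff.1 h7
  obtain ⟨a₁, y, a₂, rfl, e1, e2⟩ := k2.1 t t1 (by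
    rintro rfl
    exact List.ne_nil_of_mem (h5 i hi hab) (by simpa using t2))
  rw [List.map_append, List.map_cons] at t2
  obtain ⟨b₁, b₂, rfl, g1, g2⟩ := List.map_eq_append_iff.1 t2
  obtain ⟨z, b₃, rfl, g3, g4⟩ := List.map_eq_cons_iff.1 g2
  have z1 : z ∈ b₁ ++ z :: b₃ := by simp
  obtain ⟨i₀, i1, rfl⟩ := (k4 z).1 (by simp)
  refine ⟨i₀, i1, ⟨not_lt.1 (h2 _ (List.mem_append_left _ z1)), h3 _ z1⟩,
    fun j hj hj' hne => ?_⟩
  change col j < col i₀
  simp only at g3
  rw [g3]
  have h8 := h5 j hj hj'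
  simp only [List.mem_append, List.mem_cons] at h8
  rcases h8 with h8 | h8 | h8
  · exact (le_top' (g1 ▸ List.mem_map.2 ⟨_, h8, rfl⟩)).trans_lt e1
  · exact absurd (hx (congrArg Prod.fst h8)) hne
  · exact (le_top' (g4 ▸ List.mem_map.2 ⟨_, h8, rfl⟩)).trans_lt e2

theorem main : ∃ A : List ℕ → ℕ, ∃ C : ℝ, (∀ l, 1 ≤ A l) ∧
    ∀ x : ℕ → ℝ, Function.Injective x → ∀ n : ℕ,
      (∀ I : Set ℝ, I.OrdConnected → (∃ i, i < n ∧ x i ∈ I) →
        ∃ i, i < n ∧ x i ∈ I ∧ ∀ j, j < n → x j ∈ I → j ≠ i →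
          A ((List.range (j + 1)).map (rank x)) < A ((List.range (i + 1)).map (rank x))) ∧
      (2 ≤ n → ∀ i, i < n → (A ((List.range (i + 1)).map (rank x)) : ℝ) ≤ C * Real.log n) := by
  classical
  obtain ⟨A, hA⟩ := online_um
  generalize cC = C at hA
  refine ⟨fun l => A l + 1, 6 * C / Real.log 2, fun l => Nat.le_add_left _ _, fun x hx n =>
    ⟨fun I hI ⟨i, hi⟩ => ?_, fun hn i hi => ?_⟩⟩
  · have hne : ((Finset.range n).filter fun j => x j ∈ I).Nonempty := ⟨i, by simpa using hi⟩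
    obtain ⟨a, a1, a2⟩ := Finset.exists_min_image _ x hne
    obtain ⟨b, b1, b2⟩ := Finset.exists_max_image _ x hne
    simp only [Finset.mem_filter, Finset.mem_range] at a1 a2 b1 b2
    obtain ⟨k, k1, k2, k3⟩ := (hA x hx n).1 (x a) (x b) ⟨i, hi.1, a2 i hi, b2 i hi⟩
    exact ⟨k, k1, hI.out a1.2 b1.2 k2, fun j j1 j2 j3 =>
      Nat.succ_lt_succ (k3 j j1 ⟨a2 j ⟨j1, j2⟩, b2 j ⟨j1, j2⟩⟩ j3)⟩
  · have h1 : A ((List.range (i + 1)).map (rank x)) + 1 ≤ C * (Nat.log 2 n + 5) :=
      (hA x hx n).2 i hi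
    have h2 : (1 : ℝ) ≤ Nat.log 2 n := by exact_mod_cast Nat.log_pos (by norm_num) hn
    have h3 : (Nat.log 2 n : ℝ) * Real.log 2 ≤ Real.log n := by
      rw [← Real.log_pow]
      exact Real.log_le_log (by positivity) (by exact_mod_cast Nat.pow_log_le_self 2 (by omega))
    have h4 := Real.log_pos (show (1 : ℝ) < 2 by norm_num)
    have h5 : (0 : ℝ) ≤ C := Nat.cast_nonneg _
    refine le_trans (by exact_mod_cast h1 : _ ≤ (C : ℝ) * (Nat.log 2 n + 5)) ?_
    rw [div_mul_eq_mul_div, le_div_iff₀ h4]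
    nlinarith [mul_nonneg h5 h4.le, mul_le_mul_of_nonneg_left h3 h5,
      mul_le_mul_of_nonneg_left h2 (mul_nonneg h5 h4.le)]

end Pool.Agent.Lib.MP_755262_lc.UM
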